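import Mathlib

set_option autoImplicit false

open Set Topology TopologicalSpace

namespace Pool.Agent.Results.MP_6b7ad2_lc.TurbulentGdelta

variable {G X : Type*} [Group G] [TopologicalSpace G] [TopologicalSpace X] [MulAction G X]

/-- The edges of the `(U, V)`-local graph: `x R y` iff `x, y ∈ U` and `g • x = y` for some
`g ∈ V`. -/
def LocalStep (U : Set X) (V : Set G) (x y : X) : Prop :=
  x ∈ U ∧ y ∈ U ∧ ∃ g ∈ V, g • x = y

/-- The local orbit `O(x, U, V)`: the points reachable from `x` by finitely many steps of the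
`(U, V)`-local graph (for symmetric `V` and `x ∈ U`, the connected component of `x`). -/
def LocalOrbit (x : X) (U : Set X) (V : Set G) : Set X :=
  {y | Relation.ReflTransGen (LocalStep U V) x y}

/-- `V` is a symmetric open neighbourhood of the identity. -/
def SymmNhd (V : Set G) : Prop := IsOpen V ∧ (1 : G) ∈ V ∧ V⁻¹ = V

variable (G) in
/-- A point `x` is turbulent if for every open `U ∋ x` and every symmetric open neighbourhood `V`
of the identity the closure of the local orbit `O(x, U, V)` has nonempty interior. -/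
def Turbulent (x : X) : Prop :=
  ∀ U : Set X, IsOpen U → x ∈ U → ∀ V : Set G, SymmNhd V →
    (interior (closure (LocalOrbit x U V))).Nonempty

theorem step_symm {U : Set X} {V : Set G} (hV : V⁻¹ = V) {x y : X} (h : LocalStep U V x y) :
    LocalStep U V y x := by
  obtain ⟨hx, hy, g, hg, rfl⟩ := h
  refine ⟨hy, hx, g⁻¹, ?_, inv_smul_smul g x⟩
  rw [← hV]
  exact Set.inv_mem_inv.2 hg

theorem orbit_symm {U : Set X} {V : Set G} (hV : V⁻¹ = V) {x y : X} (h : y ∈ LocalOrbit x U V) :
    x ∈ LocalOrbit y U V := by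
  induction h with
  | refl => exact Relation.ReflTransGen.refl
  | tail _ hbc ih => exact Relation.ReflTransGen.head (step_symm hV hbc) ih

theorem orbit_sub {U : Set X} {V : Set G} {x y : X} (hx : x ∈ U) (h : y ∈ LocalOrbit x U V) :
    y ∈ U := by
  induction h with
  | refl => exact hx
  | tail _ hbc _ => exact hbc.2.1

theorem orbit_mono {U U' : Set X} {V V' : Set G} (hU : U ⊆ U') (hV : V ⊆ V') (x : X) :
    LocalOrbit x U V ⊆ LocalOrbit x U' V' := by
  intro y hy
  induction hy with
  | refl => exact Relation.ReflTransGen.refl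
  | tail _ hbc ih =>
    obtain ⟨h1, h2, g, hg, h3⟩ := hbc
    exact Relation.ReflTransGen.tail ih ⟨hU h1, hU h2, g, hV hg, h3⟩

variable [ContinuousConstSMul G X]

/-- the closure of a local orbit is invariant under local steps -/
theorem closure_step {U : Set X} (hU : IsOpen U) {V : Set G} {x y z : X}
    (hy : y ∈ closure (LocalOrbit x U V)) (h : LocalStep U V y z) :
    z ∈ closure (LocalOrbit x U V) := by
  obtain ⟨hyU, hzU, g, hg, rfl⟩ := h
  rw [mem_closure_iff] at hy ⊢
  intro W hW hzW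
  obtain ⟨w, ⟨⟨hw1, hw2⟩, hw3⟩, hwo⟩ := hy (((fun p => g • p) ⁻¹' (W ∩ U)) ∩ U)
    (((hW.inter hU).preimage (continuous_const_smul g)).inter hU) ⟨⟨hzW, hzU⟩, hyU⟩
  exact ⟨g • w, hw1, Relation.ReflTransGen.tail hwo ⟨hw3, hw2, g, hg, rfl⟩⟩

theorem closure_orbit {U : Set X} (hU : IsOpen U) {V : Set G} {x y z : X}
    (hy : y ∈ closure (LocalOrbit x U V)) (h : z ∈ LocalOrbit y U V) :
    z ∈ closure (LocalOrbit x U V) := by
  induction h with
  | refl => exact hy
  | tail _ hbc ih => exact closure_step hU ih hbc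

theorem interior_step {U : Set X} (hU : IsOpen U) {V : Set G} {x y z : X}
    (hy : y ∈ interior (closure (LocalOrbit x U V))) (h : LocalStep U V y z) :
    z ∈ interior (closure (LocalOrbit x U V)) := by
  obtain ⟨hyU, hzU, g, hg, rfl⟩ := h
  -- the set `g • (Int ∩ U ∩ g⁻¹ U)`
  have hop : IsOpen ((fun p => g⁻¹ • p) ⁻¹' (interior (closure (LocalOrbit x U V)) ∩ U) ∩ U) :=
    ((isOpen_interior.inter hU).preimage (continuous_const_smul g⁻¹)).inter hU
  refine mem_interior.2 ⟨_, ?_, hop, ?_⟩
  · rintro w ⟨⟨hw1, hw2⟩, hw3⟩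
    exact closure_step hU (interior_subset hw1) ⟨hw2, hw3, g, hg, smul_inv_smul g w⟩
  · refine ⟨⟨?_, ?_⟩, hzU⟩
    · change g⁻¹ • g • y ∈ _
      rw [inv_smul_smul]
      exact hy
    · change g⁻¹ • g • y ∈ _
      rw [inv_smul_smul]
      exact hyU

theorem interior_orbit {U : Set X} (hU : IsOpen U) {V : Set G} {x y z : X}
    (hy : y ∈ interior (closure (LocalOrbit x U V))) (h : z ∈ LocalOrbit y U V) :
    z ∈ interior (closure (LocalOrbit x U V)) := by
  induction h with
  | refl => exact hy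
  | tail _ hbc ih => exact interior_step hU ih hbc

/-- Hjorth's reformulation -/
theorem mem_interior_of_nonempty {U : Set X} (hU : IsOpen U) {V : Set G} (hV : V⁻¹ = V) {x : X}
    (h : (interior (closure (LocalOrbit x U V))).Nonempty) :
    x ∈ interior (closure (LocalOrbit x U V)) := by
  obtain ⟨w, hw⟩ := h
  obtain ⟨y, hy1, hy2⟩ := mem_closure_iff.1 (interior_subset hw) _ isOpen_interior hw
  exact interior_orbit hU hy1 (orbit_symm hV hy2)

/-- saturations of open sets are open -/
theorem isOpen_sat {U : Set X} (hU : IsOpen U) (V : Set G) {W : Set X} (hW : IsOpen W) :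
    IsOpen {x | x ∈ U ∧ (LocalOrbit x U V ∩ W).Nonempty} := by
  rw [isOpen_iff_forall_mem_open]
  rintro x ⟨hxU, y, hy, hyW⟩
  have hyU : y ∈ U := orbit_sub hxU hy
  -- induction from the end of the path
  have key : ∀ z, Relation.ReflTransGen (LocalStep U V) z y → z ∈ U →
      ∃ N : Set X, IsOpen N ∧ z ∈ N ∧ N ⊆ {x | x ∈ U ∧ (LocalOrbit x U V ∩ W).Nonempty} := by
    intro z hz
    induction hz using Relation.ReflTransGen.head_induction_on with
    | refl =>
      intro _
      exact ⟨U ∩ W, hU.inter hW, ⟨hyU, hyW⟩, fun p hp =>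
        ⟨hp.1, p, Relation.ReflTransGen.refl, hp.2⟩⟩
    | head hab hbc ih =>
      intro haU
      rename_i a b
      obtain ⟨h1, h2, g, hg, rfl⟩ := hab
      obtain ⟨N, hN, hbN, hsub⟩ := ih h2
      refine ⟨U ∩ (fun p => g • p) ⁻¹' N, hU.inter (hN.preimage (continuous_const_smul g)),
        ⟨haU, hbN⟩, ?_⟩
      rintro p ⟨hpU, hpN⟩
      obtain ⟨h3, w, hw1, hw2⟩ := hsub hpN
      exact ⟨hpU, w, Relation.ReflTransGen.head ⟨hpU, h3, g, hg, rfl⟩ hw1, hw2⟩
  obtain ⟨N, hN, hxN, hsub⟩ := key x hy hxU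
  exact ⟨N, hsub, hN, hxN⟩

/-- points whose local orbit is dense near themselves -/
theorem gdelta_A [MetrizableSpace X] [SecondCountableTopology X] {U : Set X} (hU : IsOpen U)
    {V : Set G} (hV : V⁻¹ = V) :
    IsGδ {x | x ∈ U ∧ x ∈ interior (closure (LocalOrbit x U V))} := by
  let D : Set X → Set X := fun W => {x | x ∈ U ∧ W ⊆ closure (LocalOrbit x U V)}
  have hD : ∀ W ∈ countableBasis X, IsGδ (D W) := by
    intro W hW
    have h1 : D W = U ∩ ⋂ W' ∈ countableBasis X, {x | (W' ⊆ W ∧ W'.Nonempty) →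
        (x ∈ U ∧ (LocalOrbit x U V ∩ W').Nonempty)} := by
      ext x
      constructor
      · rintro ⟨hxU, hx⟩
        refine ⟨hxU, mem_iInter₂.2 fun W' hW' hc => ⟨hxU, ?_⟩⟩
        obtain ⟨w, hw⟩ := hc.2
        have := mem_closure_iff.1 (hx (hc.1 hw)) W' (isOpen_of_mem_countableBasis hW') hw
        rwa [inter_comm]
      · rintro ⟨hxU, hx⟩
        refine ⟨hxU, fun w hw => ?_⟩
        rw [mem_closure_iff]
        intro O hO hwO
        obtain ⟨W', hW', hwW', hsub⟩ := (isBasis_countableBasis X).exists_subset_of_mem_open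
          (⟨hwO, hw⟩ : w ∈ O ∩ W) (hO.inter (isOpen_of_mem_countableBasis hW))
        obtain ⟨-, z, hz1, hz2⟩ := mem_iInter₂.1 hx W' hW' ⟨hsub.trans inter_subset_right, w, hwW'⟩
        exact ⟨z, (hsub hz2).1, hz1⟩
    rw [h1]
    refine hU.isGδ.inter (IsGδ.biInter (countable_countableBasis X) fun W' hW' => ?_)
    by_cases hc : W' ⊆ W ∧ W'.Nonempty
    · have : {x | (W' ⊆ W ∧ W'.Nonempty) → (x ∈ U ∧ (LocalOrbit x U V ∩ W').Nonempty)} =
          {x | x ∈ U ∧ (LocalOrbit x U V ∩ W').Nonempty} := by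
        ext x
        simp [hc]
      rw [this]
      exact (isOpen_sat hU V (isOpen_of_mem_countableBasis hW')).isGδ
    · have : {x | (W' ⊆ W ∧ W'.Nonempty) → (x ∈ U ∧ (LocalOrbit x U V ∩ W').Nonempty)} =
          univ := by
        ext x
        simp [hc]
      rw [this]
      exact IsGδ.univ
  -- the family of good basic sets
  let 𝒲 : Set (Set X) := {W | W ∈ countableBasis X ∧ W ⊆ U ∧ (W ∩ D W).Nonempty}
  have h𝒲c : 𝒲.Countable := (countable_countableBasis X).mono fun W hW => hW.1
  have key : ∀ W ∈ 𝒲, ∀ x ∈ W, (x ∈ interior (closure (LocalOrbit x U V)) ↔ x ∈ D W) := by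
    rintro W ⟨hWb, hWU, y, hyW, hyU, hyD⟩ x hxW
    constructor
    · intro hx
      refine ⟨hWU hxW, ?_⟩
      obtain ⟨z, hz1, hz2⟩ := mem_closure_iff.1 (hyD hxW) _ isOpen_interior hx
      have h1 : LocalOrbit y U V ⊆ closure (LocalOrbit x U V) := by
        intro w hw
        have h2 : w ∈ LocalOrbit z U V := (orbit_symm hV hz2).trans hw
        exact closure_orbit hU (interior_subset hz1) h2
      exact hyD.trans (closure_minimal h1 isClosed_closure)
    · rintro ⟨-, hx⟩
      exact mem_interior.2 ⟨W, hx, isOpen_of_mem_countableBasis hWb, hxW⟩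
  have hA : {x | x ∈ U ∧ x ∈ interior (closure (LocalOrbit x U V))} =
      (⋃ W ∈ 𝒲, W) ∩ ⋂ W ∈ 𝒲, (Wᶜ ∪ D W) := by
    ext x
    constructor
    · rintro ⟨hxU, hx⟩
      constructor
      · obtain ⟨W, hW, hxW, hsub⟩ := (isBasis_countableBasis X).exists_subset_of_mem_open
          (⟨hx, hxU⟩ : x ∈ interior (closure (LocalOrbit x U V)) ∩ U) (isOpen_interior.inter hU)
        refine mem_iUnion₂.2 ⟨W, ⟨hW, hsub.trans inter_subset_right, x, hxW, hxU, ?_⟩, hxW⟩
        exact (hsub.trans inter_subset_left).trans interior_subset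
      · refine mem_iInter₂.2 fun W hW => ?_
        by_cases hxW : x ∈ W
        · exact Or.inr ((key W hW x hxW).1 hx)
        · exact Or.inl hxW
    · rintro ⟨h1, h2⟩
      obtain ⟨W, hW, hxW⟩ := mem_iUnion₂.1 h1
      rcases mem_iInter₂.1 h2 W hW with h3 | h3
      · exact absurd hxW h3
      · exact ⟨h3.1, (key W hW x hxW).2 h3⟩
  rw [hA]
  refine IsOpen.isGδ (isOpen_biUnion fun W hW => isOpen_of_mem_countableBasis hW.1) |>.inter ?_
  refine IsGδ.biInter h𝒲c fun W hW => ?_
  have hcl : IsGδ Wᶜ := by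
    let := metrizableSpaceMetric X
    exact ((isOpen_of_mem_countableBasis hW.1).isClosed_compl).isGδ
  exact hcl.union (hD W hW.1)

/-- **The set of turbulent points is a `G_δ` set**, for every Polish group `G` and every Polish
`G`-space `X`. -/
theorem result (G X : Type*) [Group G] [TopologicalSpace G] [IsTopologicalGroup G] [PolishSpace G]
    [TopologicalSpace X] [PolishSpace X] [MulAction G X] [ContinuousSMul G X] :
    IsGδ {x : X | Turbulent G x} := by
  -- a countable base of symmetric neighbourhoods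
  obtain ⟨V0, hV0⟩ := (nhds (1 : G)).exists_antitone_basis
  let V : ℕ → Set G := fun n => interior (V0 n) ∩ (interior (V0 n))⁻¹
  have hVs : ∀ n, SymmNhd (V n) := by
    intro n
    refine ⟨isOpen_interior.inter isOpen_interior.inv, ?_, ?_⟩
    · have h1 : (1 : G) ∈ interior (V0 n) := mem_interior_iff_mem_nhds.2 (hV0.1.mem_of_mem trivial)
      exact ⟨h1, by rw [Set.mem_inv, inv_one]; exact h1⟩
    · simp only [V, Set.inter_inv, inv_inv]
      exact inter_comm _ _
  have hVb : ∀ W : Set G, IsOpen W → (1 : G) ∈ W → ∃ n, V n ⊆ W := by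
    intro W hW h1
    obtain ⟨n, -, hn⟩ := hV0.1.mem_iff.1 (hW.mem_nhds h1)
    exact ⟨n, fun g hg => hn (interior_subset hg.1)⟩
  have hT : {x : X | Turbulent G x} = ⋂ U ∈ countableBasis X, ⋂ n : ℕ,
      (Uᶜ ∪ {x | x ∈ U ∧ x ∈ interior (closure (LocalOrbit x U (V n)))}) := by
    ext x
    simp only [mem_ofPred_eq, mem_iInter]
    constructor
    · intro hx U hU n
      by_cases hxU : x ∈ U
      · exact Or.inr ⟨hxU, mem_interior_of_nonempty (isOpen_of_mem_countableBasis hU) (hVs n).2.2
          (hx U (isOpen_of_mem_countableBasis hU) hxU (V n) (hVs n))⟩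
      · exact Or.inl hxU
    · intro hx U hU hxU W hW
      obtain ⟨U', hU', hxU', hsub⟩ :=
        (isBasis_countableBasis X).exists_subset_of_mem_open hxU hU
      obtain ⟨n, hn⟩ := hVb W hW.1 hW.2.1
      rcases hx U' hU' n with h | h
      · exact absurd hxU' h
      · exact ⟨x, interior_mono (closure_mono (orbit_mono hsub hn x)) h.2⟩
  rw [hT]
  refine IsGδ.biInter (countable_countableBasis X) fun U hU => IsGδ.iInter fun n => ?_
  have hcl : IsGδ Uᶜ := by
    let := metrizableSpaceMetric X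
    exact ((isOpen_of_mem_countableBasis hU).isClosed_compl).isGδ
  exact hcl.union (gdelta_A (isOpen_of_mem_countableBasis hU) (hVs n).2.2)

end Pool.Agent.Results.MP_6b7ad2_lc.TurbulentGdelta
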